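import Pool.Agent.Q283.EN.Stm3
import Pool.Agent.Q190.CE.EKUM

/-!
# Project EN (helper283), job ECOC: from a class to a cocycle. Author of this file: helper121.
-/

set_option autoImplicit false

namespace Pool.Agent.Q121.EN

open WeierstrassCurve NumberField IsDedekindDomain
open Pool.Agent.Q7.CE
open Pool.Agent.Q190.CE
open Pool.Agent.Q7.LK (IsPow)
open Pool.Agent.TH841.SH.D (Coch Pt act Gal IsCoc IsCob LocTriv)
open Pool.Agent.TH841.NF.D (Sha IsShaCoc)

section alg

variable {L : Type} [Field L]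

/-- the point with given `γ`, `δ` -/
theorem curve_eq {d w g e x y : L} (hw : w ^ 2 + w + 1 = 0) (h : e ^ 3 - g ^ 3 = d)
    (hx : x = -(e ^ 2 + e * g + g ^ 2)) (hy : y = (w ^ 2 * g - w * e) * x) :
    y ^ 2 + d * y = x ^ 3 := by
  have hw3 : w ^ 3 = 1 := by linear_combination (w - 1) * hw
  have hd : d = -(e - g) * x := by rw [← h, hx]; ring
  have e1 : (w ^ 2 * g - w * e) ^ 2 - (e - g) * (w ^ 2 * g - w * e) = x := by
    rw [hx]
    linear_combination (g ^ 2 * w - 2 * g * e) * hw3 + (g ^ 2 + e ^ 2 - e * g) * hw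
  rw [hy, hd]
  linear_combination x ^ 2 * e1

theorem gm_eq {d w g e x y : L} (h3 : (3 : L) ≠ 0) (hw : w ^ 2 + w + 1 = 0) (hx0 : x ≠ 0)
    (hd : d = -(e - g) * x) (hy : y = (w ^ 2 * g - w * e) * x) : gm d w x y = g ∧ dl d w x y = e := by
  have hw2 := w_ne h3 hw
  constructor
  · unfold gm
    rw [div_eq_iff (mul_ne_zero hw2 hx0), hy, hd]
    ring
  · unfold dl
    rw [div_eq_iff (mul_ne_zero hw2 hx0), hy, hd]
    ring

/-- the point is determined by `γ`, `δ` -/
theorem recover {d w x y x' y' : L} (h3 : (3 : L) ≠ 0) (hw : w ^ 2 + w + 1 = 0) (hd : d ≠ 0)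
    (hx : x ≠ 0) (hx' : x' ≠ 0) (h1 : gm d w x y = gm d w x' y') (h2 : dl d w x y = dl d w x' y') :
    x = x' ∧ y = y' := by
  have hw2 := w_ne h3 hw
  have key : ∀ x y : L, x ≠ 0 → (dl d w x y - gm d w x y) * x = -d ∧
      gm d w x y * ((w ^ 2 - w) * x) = y - w * d := by
    intro x y hx
    constructor
    · unfold dl gm
      rw [← sub_div, div_mul_eq_mul_div, div_eq_iff (mul_ne_zero hw2 hx)]
      ring
    · unfold gm
      rw [div_mul_cancel₀ _ (mul_ne_zero hw2 hx)]
  obtain ⟨a1, a2⟩ := key x y hx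
  obtain ⟨b1, b2⟩ := key x' y' hx'
  rw [← h1] at b2
  rw [← h1, ← h2] at b1
  have hne : dl d w x y - gm d w x y ≠ 0 := by
    intro h0
    rw [h0, zero_mul] at a1
    exact hd (neg_eq_zero.1 a1.symm)
  have hxx : x = x' := mul_left_cancel₀ hne (a1.trans b1.symm)
  refine ⟨hxx, ?_⟩
  subst hxx
  linear_combination b2 - a2

end alg

theorem val_zero_of {L : Type} [Field L] {W : L} (hprim : IsPrimitiveRoot W 3) {c : ZMod 3}
    (h : W ^ c.val = 1) : c = 0 := by
  have h1 := (hprim.pow_eq_one_iff_dvd _).1 h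
  have h2 := ZMod.val_lt c
  exact (ZMod.val_eq_zero c).1 (Nat.eq_zero_of_dvd_of_lt h1 h2)

/-- converse of `local_AE` -/
theorem loc_of {F : Type} [Field F] {D : F} (hD : D ≠ 0) (K : Type) [Field K] [Algebra F K] [CharZero K]
    (f : Coch (ED D)) (h3 : (3 : AlgebraicClosure F) ≠ 0) (h : Gal F → ZMod 3)
    (hf : ∀ σ, f σ = tt D h3 hD (h σ)) {w : F} (hω : IsPrimitiveRoot w 3) (hw : w ^ 2 + w + 1 = 0)
    {s : AlgebraicClosure F} {a : F} (hs0 : s ≠ 0) (hs3 : s ^ 3 = algebraMap F _ a)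
    (hs : ∀ σ : Gal F, σ s = (algebraMap F (AlgebraicClosure F) w) ^ (h σ).val * s) {u w' t : K}
    (hne : u ≠ 0 ∨ w' ≠ 0 ∨ t ≠ 0)
    (hsol : w' ^ 3 = (algebraMap F K a) ^ 2 * u ^ 3 + algebraMap F K a * algebraMap F K D * t ^ 3) :
    LocTriv (ED D) K f := by
  intro ι
  have k3 : (3 : AlgebraicClosure K) ≠ 0 := three_ne_zero
  obtain ⟨W, hWdef⟩ : ∃ W, W = algebraMap F (AlgebraicClosure K) w := ⟨_, rfl⟩
  have hW : W ^ 2 + W + 1 = 0 := by
    rw [hWdef, ← map_pow, ← map_add, ← map_one (algebraMap F (AlgebraicClosure K)), ← map_add, hw, map_zero]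
  have hW3 : W ^ 3 = 1 := by linear_combination (W - 1) * hW
  have hprim : IsPrimitiveRoot W 3 := by
    rw [hWdef]
    exact hω.map_of_injective (algebraMap F (AlgebraicClosure K)).injective
  have hW0 : W ≠ 0 := hprim.ne_zero (by norm_num)
  have hι0 : ι s ≠ 0 := by
    intro h0
    exact hs0 ((map_eq_zero ι).1 h0)
  have hι3 : ι s ^ 3 = algebraMap F (AlgebraicClosure K) a := by rw [← map_pow, hs3, ι.commutes]
  have htower : ∀ z : F, algebraMap F (AlgebraicClosure K) z =
      algebraMap K (AlgebraicClosure K) (algebraMap F K z) :=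
    fun z => IsScalarTower.algebraMap_apply F K (AlgebraicClosure K) z
  have hτd : ∀ (τ : Gal K) (z : F), τ (algebraMap F (AlgebraicClosure K) z) = algebraMap F (AlgebraicClosure K) z := by
    intro τ z
    rw [htower, τ.commutes]
  have hτW : ∀ τ : Gal K, τ W = W := fun τ => by rw [hWdef]; exact hτd τ w
  have key : ∀ (τ : Gal K) (σ : Gal F), (∀ x, τ (ι x) = ι (σ x)) → τ (ι s) = W ^ (h σ).val * ι s := by
    intro τ σ hσ
    rw [hσ s, hs σ, map_mul, map_pow, ι.commutes, hWdef]
  have ha0 : algebraMap F K a ≠ 0 := by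
    intro h0
    apply hι0
    have : ι s ^ 3 = 0 := by rw [hι3, htower, h0, map_zero]
    exact pow_eq_zero_iff (three_ne_zero) |>.1 this
  by_cases ht : t = 0
  · have hu : u ≠ 0 := by
      intro hu
      rw [ht, hu] at hsol
      have : w' = 0 := by
        have h1 : w' ^ 3 = 0 := by rw [hsol]; ring
        exact pow_eq_zero_iff (three_ne_zero) |>.1 h1
      rcases hne with h1 | h1 | h1
      · exact h1 hu
      · exact h1 this
      · exact h1 ht
    have hw'0 : w' ≠ 0 := by
      intro h0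
      rw [ht, h0] at hsol
      have h1 : (algebraMap F K a) ^ 2 * u ^ 3 = 0 := by linear_combination -hsol
      exact mul_ne_zero (pow_ne_zero 2 ha0) (pow_ne_zero 3 hu) h1
    have hcube : (algebraMap F K a * u / w') ^ 3 = algebraMap F K a := by
      rw [div_pow, div_eq_iff (pow_ne_zero 3 hw'0), hsol, ht]
      ring
    have hc2 : ι s ^ 3 = (algebraMap K (AlgebraicClosure K) (algebraMap F K a * u / w')) ^ 3 := by
      rw [hι3, ← map_pow, hcube, htower]
    obtain ⟨i, hi⟩ := cube_eq hW hc2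
    refine ⟨0, fun τ σ hσ => ?_⟩
    have h1 := key τ σ hσ
    have h2 : τ (ι s) = ι s := by
      rw [hi, map_mul, map_pow, hτW, τ.commutes]
    have h4 : W ^ (h σ).val = 1 := by
      apply mul_right_cancel₀ hι0
      rw [one_mul, ← h1, h2]
    have h5 := val_zero_of hprim h4
    rw [hf σ, h5]
    unfold tt
    rw [ZMod.val_zero, zero_nsmul, map_zero, map_zero, sub_zero]
  · obtain ⟨d, hddef⟩ : ∃ d, d = algebraMap F (AlgebraicClosure K) D := ⟨_, rfl⟩
    have hd0 : d ≠ 0 := by rw [hddef]; exact (map_ne_zero _).2 hD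
    obtain ⟨g, hg⟩ : ∃ g, g = algebraMap K (AlgebraicClosure K) (u / t) * ι s := ⟨_, rfl⟩
    obtain ⟨e, he⟩ : ∃ e, e = algebraMap K (AlgebraicClosure K) (w' / t) / ι s := ⟨_, rfl⟩
    have heg : e ^ 3 - g ^ 3 = d := by
      have h1 : (w' / t) ^ 3 = (algebraMap F K a) ^ 2 * (u / t) ^ 3 + algebraMap F K a * algebraMap F K D := by
        rw [div_pow, div_pow, hsol]
        field_simp
      have h2 := congrArg (algebraMap K (AlgebraicClosure K)) h1
      rw [map_pow, map_add, map_mul, map_mul, map_pow, map_pow, ← htower, ← htower, ← hι3, ← hddef] at h2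
      rw [he, hg, div_pow, h2]
      field_simp
      ring
    obtain ⟨x, hx⟩ : ∃ x, x = -(e ^ 2 + e * g + g ^ 2) := ⟨_, rfl⟩
    obtain ⟨y, hy⟩ : ∃ y, y = (W ^ 2 * g - W * e) * x := ⟨_, rfl⟩
    have hdx : d = -(e - g) * x := by rw [← heg, hx]; ring
    have hx0 : x ≠ 0 := by
      intro h0
      rw [h0, mul_zero] at hdx
      exact hd0 hdx
    have hcurve := curve_eq hW heg hx hy
    rw [hddef] at hcurve
    obtain ⟨hgm, hdl⟩ := gm_eq k3 hW hx0 hdx hy
    refine ⟨mkP k3 hD x y hcurve, fun τ σ hσ => ?_⟩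
    have hk := key τ σ hσ
    obtain ⟨c, hc⟩ : ∃ c, c = (h σ).val := ⟨_, rfl⟩
    rw [← hc] at hk
    have hWc : W ^ c ≠ 0 := pow_ne_zero _ hW0
    have hτg : τ g = W ^ c * g := by
      rw [hg, map_mul, hk, τ.commutes]
      ring
    have hWW : W ^ (2 * c) * W ^ c = 1 := by
      rw [← pow_add, show 2 * c + c = 3 * c by ring, pow_mul, hW3, one_pow]
    have hτe : τ e = W ^ (2 * c) * e := by
      rw [he, map_div₀, hk, τ.commutes]
      rw [div_eq_iff (mul_ne_zero hWc hι0)]
      rw [show W ^ (2 * c) * (algebraMap K (AlgebraicClosure K) (w' / t) / ι s) * (W ^ c * ι s) =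
        (W ^ (2 * c) * W ^ c) * (algebraMap K (AlgebraicClosure K) (w' / t) / ι s * ι s) by ring, hWW,
        div_mul_cancel₀ _ hι0, one_mul]
    obtain ⟨x', y', h', hx', e1, e2, e3⟩ := iter k3 hD hW hx0 hcurve c
    obtain ⟨h'', e4⟩ := act_mk (τ.toAlgHom.restrictScalars F) k3 k3 hD hcurve
    have f1 : gm d W (τ x) (τ y) = τ (gm d W x y) := by
      unfold gm
      rw [map_div₀, map_sub, map_mul, map_mul, map_sub, map_pow, hτW, hddef, hτd]
    have f2 : dl d W (τ x) (τ y) = τ (dl d W x y) := by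
      unfold dl
      rw [map_div₀, map_sub, map_mul, map_mul, map_sub, map_pow, hτW, hddef, hτd]
    rw [← hddef] at e2 e3
    have hτx : τ x ≠ 0 := (map_ne_zero τ).2 hx0
    obtain ⟨r1, r2⟩ := recover k3 hW hd0 hτx hx' (by rw [f1, e2, hgm, hτg]) (by rw [f2, e3, hdl, hτe])
    have e5 : act (ED D) (τ.toAlgHom.restrictScalars F) (mkP k3 hD x y hcurve) =
        mkP k3 hD x y hcurve + c • TT D k3 hD := by
      rw [e4, e1]
      exact (mkP_congr r1 r2).choose_spec
    rw [e5, add_sub_cancel_left, hf σ, act_tt ι h3 k3 hD, hc]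
    rfl

/-- coboundaries are locally trivial -/
theorem loc_cob {F : Type} [Field F] {D : F} (K : Type) [Field K] [Algebra F K] (f : Coch (ED D))
    (hf : IsCob (ED D) f) : LocTriv (ED D) K f := by
  obtain ⟨R, hR⟩ := hf
  intro ι
  refine ⟨act (ED D) ι R, fun τ σ hσ => ?_⟩
  rw [hR σ, map_sub]
  congr 1
  rcases R with _ | ⟨x, y, h⟩
  · rfl
  · have e1 : (ι.comp σ.toAlgHom) = (τ.toAlgHom.restrictScalars F).comp ι := by
      ext x
      exact (hσ x).symm
    have aa : ∀ {A B C : Type} [Field A] [Field B] [Field C] [Algebra F A] [Algebra F B] [Algebra F C]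
        (g : B →ₐ[F] C) (f : A →ₐ[F] B) (P : Pt (ED D) A),
        act (ED D) g (act (ED D) f P) = act (ED D) (g.comp f) P := by
      intro A B C _ _ _ _ _ _ g f P
      rcases P with _ | ⟨x, y, h⟩ <;> rfl
    rw [aa, aa, e1]

theorem exists_place (F : Type) [Field F] [NumberField F] : Nonempty (HeightOneSpectrum (𝓞 F)) := by
  obtain ⟨M, hM⟩ := Ideal.exists_maximal (𝓞 F)
  exact ⟨⟨M, hM.isPrime, Ring.ne_bot_of_isMaximal_of_not_isField hM (RingOfIntegers.not_isField F)⟩⟩

/-- cube roots in the completions at the infinite places -/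
theorem cube_inf {F : Type} [Field F] [NumberField F] {ω : F} (hw : ω ^ 2 + ω + 1 = 0)
    (v : InfinitePlace F) (z : v.Completion) : ∃ s : v.Completion, s ^ 3 = z := by
  rcases v.isReal_or_isComplex with hv | hv
  · exfalso
    obtain ⟨r, hr⟩ : ∃ r : ℝ, r = InfinitePlace.Completion.ringEquivRealOfIsReal hv
      (algebraMap F v.Completion ω) := ⟨_, rfl⟩
    have h1 : r ^ 2 + r + 1 = 0 := by
      rw [hr, ← map_pow, ← map_add, ← map_one (InfinitePlace.Completion.ringEquivRealOfIsReal hv), ← map_add,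
        ← map_pow, ← map_add, ← map_one (algebraMap F v.Completion), ← map_add, hw, map_zero, map_zero]
    nlinarith [sq_nonneg (r + 1)]
  · obtain ⟨c, hc⟩ := IsAlgClosed.exists_pow_nat_eq
      (InfinitePlace.Completion.ringEquivComplexOfIsComplex hv z) (n := 3) (by norm_num)
    refine ⟨(InfinitePlace.Completion.ringEquivComplexOfIsComplex hv).symm c, ?_⟩
    apply (InfinitePlace.Completion.ringEquivComplexOfIsComplex hv).injective
    rw [map_pow, RingEquiv.apply_symm_apply, hc]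

theorem ecoc' : Pool.Agent.Q283.EN.S_ECOC := by
  intro F _ _ ω D hω hD a hA
  have h3 : (3 : AlgebraicClosure F) ≠ 0 := three_ne_zero
  have h3' : (3 : F) ≠ 0 := three_ne_zero
  have hw : ω ^ 2 + ω + 1 = 0 := by
    have h1 : (ω - 1) * (ω ^ 2 + ω + 1) = 0 := by
      linear_combination hω.pow_eq_one
    have h2 : ω - 1 ≠ 0 := sub_ne_zero.2 (hω.ne_one (by norm_num))
    exact (mul_eq_zero.1 h1).resolve_left h2
  have ha : a ≠ 0 := by
    obtain ⟨v⟩ := exists_place F
    exact (hA v).1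
  obtain ⟨I, hIdef⟩ : ∃ I, I = algebraMap F (AlgebraicClosure F) ω := ⟨_, rfl⟩
  have hI : I ^ 2 + I + 1 = 0 := by
    rw [hIdef, ← map_pow, ← map_add, ← map_one (algebraMap F (AlgebraicClosure F)), ← map_add, hw, map_zero]
  have hI3 : I ^ 3 = 1 := by linear_combination (I - 1) * hI
  have hfixI : ∀ σ : Gal F, σ I = I := fun σ => by rw [hIdef]; exact σ.commutes ω
  have hprim : IsPrimitiveRoot I 3 := by
    rw [hIdef]
    exact hω.map_of_injective (algebraMap F (AlgebraicClosure F)).injective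
  obtain ⟨s, hs3⟩ := IsAlgClosed.exists_pow_nat_eq (algebraMap F (AlgebraicClosure F) a) (n := 3) (by norm_num)
  have hs0 : s ≠ 0 := by
    intro h0
    rw [h0] at hs3
    apply ha
    apply (algebraMap F (AlgebraicClosure F)).injective
    rw [← hs3, map_zero]
    ring
  have hmod : ∀ i : ℕ, I ^ i = I ^ ((i : ZMod 3)).val := by
    intro i
    rw [ZMod.val_natCast]
    conv_lhs => rw [← Nat.div_add_mod i 3, pow_add, pow_mul, hI3, one_pow, one_mul]
  have hex : ∀ σ : Gal F, ∃ c : ZMod 3, σ s = I ^ c.val * s := by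
    intro σ
    obtain ⟨i, hi⟩ := cube_eq hI (x := σ s) (y := s) (by rw [← map_pow, hs3]; exact σ.commutes a)
    exact ⟨i, by rw [hi, ← hmod]⟩
  choose h hh using hex
  have hinj : ∀ c c' : ZMod 3, I ^ c.val * s = I ^ c'.val * s → c = c' := by
    intro c c' e
    have e1 := mul_right_cancel₀ hs0 e
    exact ZMod.val_injective 3 (hprim.pow_inj (ZMod.val_lt c) (ZMod.val_lt c') e1)
  have hmul : ∀ σ τ, h (σ * τ) = h σ + h τ := by
    intro σ τ
    apply hinj
    rw [← hh, AlgEquiv.mul_apply, hh τ, map_mul, map_pow, hfixI, hh σ, ZMod.val_add]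
    have : I ^ (((h σ).val + (h τ).val) % 3) = I ^ ((h σ).val + (h τ).val) := by
      conv_rhs => rw [← Nat.div_add_mod ((h σ).val + (h τ).val) 3, pow_add, pow_mul, hI3, one_pow, one_mul]
    rw [this, pow_add]
    ring
  have hcont : IsLocallyConstant h := by
    rw [IsLocallyConstant.iff_exists_open]
    intro σ
    have hx : IsIntegral F s := Algebra.IsIntegral.isIntegral s
    have : FiniteDimensional F (IntermediateField.adjoin F {s}) :=
      IntermediateField.adjoin.finiteDimensional hx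
    refine ⟨(fun τ => σ⁻¹ * τ) ⁻¹'
      ((IntermediateField.adjoin F {s}).fixingSubgroup : Set (Gal F)),
      (IntermediateField.fixingSubgroup_isOpen _).preimage (continuous_const_mul _), ?_, ?_⟩
    · show σ⁻¹ * σ ∈ (IntermediateField.adjoin F {s}).fixingSubgroup
      rw [inv_mul_cancel]
      exact one_mem _
    · intro τ hτ
      have h1 : σ⁻¹ * τ ∈ (IntermediateField.adjoin F {s}).fixingSubgroup := hτ
      rw [IntermediateField.mem_fixingSubgroup_iff] at h1
      have h2 := h1 s (IntermediateField.mem_adjoin_simple_self F s)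
      rw [AlgEquiv.mul_apply] at h2
      have h4 := congrArg σ h2
      rw [← AlgEquiv.mul_apply, mul_inv_cancel, AlgEquiv.one_apply] at h4
      apply hinj
      rw [← hh, ← hh, h4]
  have hs : ∀ σ : Gal F, σ s = (algebraMap F (AlgebraicClosure F) ω) ^ (h σ).val * s := by
    intro σ
    rw [← hIdef]
    exact hh σ
  refine ⟨fun σ => tt D h3 hD (h σ), ⟨⟨⟨?_, ?_⟩, ?_, ?_⟩, ?_⟩, ?_⟩
  · exact hcont.comp (fun c => (tt D h3 hD c : Pt (ED D) (AlgebraicClosure F)))
  · intro σ τ
    show tt D h3 hD (h (σ * τ)) = tt D h3 hD (h σ) + act (ED D) σ.toAlgHom (tt D h3 hD (h τ))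
    rw [hmul, act_tt _ h3 h3 hD, tt_add]
  · intro v
    have : CharZero (v.adicCompletion F) := charZero_of_injective_algebraMap (algebraMap F _).injective
    obtain ⟨_, u, w', t, hne, hsol⟩ := hA v
    exact loc_of hD (v.adicCompletion F) _ h3 h (fun _ => rfl) hω hw hs0 hs3 hs hne hsol
  · intro v
    have : CharZero v.Completion := charZero_of_injective_algebraMap (algebraMap F _).injective
    obtain ⟨z, hz⟩ := cube_inf hw v (algebraMap F v.Completion a)
    refine loc_of hD v.Completion _ h3 h (fun _ => rfl) hω hw hs0 hs3 hs (u := 1) (w' := z ^ 2) (t := 0)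
      (Or.inl one_ne_zero) ?_
    rw [← hz]
    ring
  · intro σ
    have h1 : (h σ).val = 0 ∨ (h σ).val = 1 ∨ (h σ).val = 2 := by
      have := ZMod.val_lt (h σ)
      omega
    show tt D h3 hD (h σ) = 0 ∨ ∃ y h', tt D h3 hD (h σ) = Affine.Point.some 0 y h'
    unfold tt
    rcases h1 with h1 | h1 | h1
    · left
      rw [h1, zero_nsmul]
    · right
      rw [h1, one_nsmul]
      exact ⟨_, _, rfl⟩
    · right
      obtain ⟨h', e⟩ := two_T (F := F) (L := AlgebraicClosure F) h3 hD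
      rw [h1, e]
      exact ⟨_, _, rfl⟩
  · intro hcob
    obtain ⟨u, w', t, hne, hsol⟩ := local_AE hD F _ h3 h (fun _ => rfl) (loc_cob F _ hcob) hw hs0 hs3 hs
    have hid : ∀ z : F, algebraMap F F z = z := fun z => rfl
    rw [hid, hid] at hsol
    by_cases ht : t = 0
    · have hu : u ≠ 0 := by
        intro hu
        have hw0 : w' = 0 := by
          have h1 : w' ^ 3 = 0 := by rw [hsol, ht, hu]; ring
          exact pow_eq_zero_iff (three_ne_zero) |>.1 h1
        rcases hne with h1 | h1 | h1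
        · exact h1 hu
        · exact h1 hw0
        · exact h1 ht
      have hw'0 : w' ≠ 0 := by
        intro h0
        rw [ht, h0] at hsol
        have h1 : a ^ 2 * u ^ 3 = 0 := by linear_combination -hsol
        exact mul_ne_zero (pow_ne_zero 2 ha) (pow_ne_zero 3 hu) h1
      refine ⟨0, ha, Or.inl ⟨rfl, a * u / w', ?_⟩⟩
      rw [div_pow, eq_div_iff (pow_ne_zero 3 hw'0), hsol, ht]
      ring
    · have h1 : (w' / t) ^ 3 = a ^ 2 * (u / t) ^ 3 + a * D := by
        rw [div_pow, div_pow, hsol]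
        field_simp
      obtain ⟨U, hU⟩ : ∃ U, U = u / t := ⟨_, rfl⟩
      obtain ⟨V, hV⟩ : ∃ V, V = w' / t := ⟨_, rfl⟩
      rw [← hU, ← hV] at h1
      by_cases hU0 : U = 0
      · refine ⟨mkP h3' hD 0 0 (by ring), ha, Or.inr (Or.inl ⟨⟨_, rfl⟩, V, ?_⟩)⟩
        rw [h1, hU0]
        show a * D = _
        ring
      · have hc : (a * U ^ 3) ^ 2 + algebraMap F F D * (a * U ^ 3) = (U * V) ^ 3 := by
          rw [hid]
          linear_combination -(U ^ 3) * h1
        refine ⟨mkP h3' hD (U * V) (a * U ^ 3) hc, ha, Or.inr (Or.inr ⟨U * V, a * U ^ 3, _, 1 / U, rfl,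
          mul_ne_zero ha (pow_ne_zero 3 hU0), one_div_ne_zero hU0, ?_⟩)⟩
        field_simp

theorem ecoc (hAEC : Pool.Agent.Q283.EN.S_AEC) (hFEND : Pool.Agent.Q7.CE.S_FEND)
    (hEDD : Pool.Agent.Q7.CE.S_EDD) : Pool.Agent.Q283.EN.S_ECOC := ecoc'

end Pool.Agent.Q121.EN
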